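import Mathlib

namespace Pool.Agent.Results.MP_56f6b7_co.Disproof

open Matrix

/-- Butson Hadamard matrix `BH(w, v)`: entries are `w`-th roots of unity and `H H* = v I`. -/
def IsBH (w v : ℕ) (H : Matrix (Fin v) (Fin v) ℂ) : Prop :=
  (∀ i j, H i j ^ w = 1) ∧ H * Hᴴ = (v : ℂ) • (1 : Matrix (Fin v) (Fin v) ℂ)

/-- First row and first column consist of ones. -/
def Normalised {v : ℕ} (H : Matrix (Fin v) (Fin v) ℂ) : Prop :=
  ∀ i j, (i.val = 0 ∨ j.val = 0) → H i j = 1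

/-- Generalised Hadamard matrix `GH(w, v / w)` over the `w`-th roots of unity. -/
def IsGH (w v : ℕ) (H : Matrix (Fin v) (Fin v) ℂ) : Prop :=
  (∀ i j, H i j ^ w = 1) ∧
    ∀ i k, i ≠ k → ∀ h : ℂ, h ^ w = 1 → {j | H i j * (H k j)⁻¹ = h}.ncard = v / w

/-- Every row but the first contains every `w`-th root of unity exactly `v / w` times. -/
def RowBalanced (w v : ℕ) (H : Matrix (Fin v) (Fin v) ℂ) : Prop :=
  ∀ i : Fin v, i.val ≠ 0 → ∀ h : ℂ, h ^ w = 1 → {j | H i j = h}.ncard = v / w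

/-- Every column but the first contains every `w`-th root of unity exactly `v / w` times. -/
def ColBalanced (w v : ℕ) (H : Matrix (Fin v) (Fin v) ℂ) : Prop :=
  ∀ j : Fin v, j.val ≠ 0 → ∀ h : ℂ, h ^ w = 1 → {i | H i j = h}.ncard = v / w

def rows : List (List ℕ) :=
  [[0, 0, 0, 0, 0, 0, 0, 0, 0, 0, 0, 0, 0, 0, 0, 0],
   [0, 0, 0, 0, 1, 1, 1, 1, 2, 2, 2, 2, 3, 3, 3, 3],
   [0, 0, 2, 1, 3, 2, 1, 0, 3, 1, 0, 3, 1, 2, 2, 3],
   [0, 3, 1, 2, 3, 0, 2, 1, 3, 0, 2, 1, 3, 1, 2, 0],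
   [0, 3, 3, 1, 3, 1, 2, 3, 0, 2, 2, 1, 1, 0, 0, 2],
   [0, 0, 2, 1, 1, 3, 3, 3, 2, 0, 1, 2, 2, 0, 3, 1],
   [0, 3, 0, 2, 1, 2, 0, 2, 3, 1, 3, 0, 2, 3, 1, 1],
   [0, 2, 1, 3, 0, 3, 0, 2, 3, 2, 1, 2, 1, 1, 0, 3],
   [0, 2, 2, 0, 0, 3, 2, 1, 1, 1, 3, 3, 3, 0, 1, 2],
   [0, 3, 3, 2, 2, 3, 1, 1, 1, 3, 0, 2, 0, 2, 0, 1],
   [0, 1, 2, 3, 2, 0, 3, 0, 2, 2, 3, 1, 1, 3, 1, 0],
   [0, 1, 3, 0, 2, 2, 3, 2, 0, 0, 1, 1, 3, 2, 1, 3],
   [0, 1, 3, 3, 0, 2, 1, 3, 2, 3, 2, 0, 0, 1, 2, 1],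
   [0, 2, 1, 2, 1, 1, 3, 0, 0, 3, 1, 3, 0, 3, 2, 2],
   [0, 2, 0, 3, 2, 1, 2, 3, 1, 1, 0, 3, 2, 1, 3, 0],
   [0, 1, 1, 1, 3, 0, 0, 2, 1, 3, 3, 0, 2, 2, 3, 2]]

def un (k : ℕ) : GaussianInt :=
  if k = 0 then ⟨1, 0⟩ else if k = 1 then ⟨0, 1⟩ else if k = 2 then ⟨-1, 0⟩ else ⟨0, -1⟩

def G (i j : Fin 16) : GaussianInt := un ((rows.getD i.val []).getD j.val 0)

noncomputable def H : Matrix (Fin 16) (Fin 16) ℂ := fun i j => (G i j : ℂ)

lemma G4 : ∀ i j, G i j ^ 4 = 1 := by decide +kernel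
lemma Gorth : ∀ i k, ∑ j, G i j * star (G k j) = if i = k then 16 else 0 := by decide +kernel
lemma Gnorm : ∀ i j : Fin 16, (i.val = 0 ∨ j.val = 0) → G i j = 1 := by decide +kernel
lemma Grow : ∀ i : Fin 16, i.val ≠ 0 → ∀ k : Fin 4,
    (Finset.univ.filter (fun j => G i j = un k.val)).card = 4 := by decide +kernel
lemma Gcol : ∀ j : Fin 16, j.val ≠ 0 → ∀ k : Fin 4,
    (Finset.univ.filter (fun i => G i j = un k.val)).card = 4 := by decide +kernel
lemma Gbad : (Finset.univ.filter (fun j => G 4 j = G 3 j)).card = 6 := by decide +kernel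

lemma root4 (h : ℂ) (hh : h ^ 4 = 1) : ∃ k : Fin 4, h = (un k.val : ℂ) := by
  have : (h - 1) * (h - Complex.I) * (h + 1) * (h + Complex.I) = 0 := by
    have hI : Complex.I ^ 2 = -1 := Complex.I_sq
    linear_combination hh - (h ^ 2 - 1) * hI
  rcases mul_eq_zero.1 this with h1 | h1
  · rcases mul_eq_zero.1 h1 with h1 | h1
    · rcases mul_eq_zero.1 h1 with h1 | h1
      · refine ⟨0, ?_⟩
        simp [un, GaussianInt.toComplex_def']
        linear_combination h1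
      · refine ⟨1, ?_⟩
        simp [un, GaussianInt.toComplex_def']
        linear_combination h1
    · refine ⟨2, ?_⟩
      simp [un, GaussianInt.toComplex_def']
      linear_combination h1
  · refine ⟨3, ?_⟩
    simp [un, GaussianInt.toComplex_def']
    linear_combination h1

lemma H4 (i j : Fin 16) : H i j ^ 4 = 1 := by
  have := congrArg GaussianInt.toComplex (G4 i j)
  simpa [H] using this

lemma ncard_eq (p : Fin 16 → Prop) (q : Fin 16 → Prop) [DecidablePred q] (h : ∀ j, p j ↔ q j) :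
    {j | p j}.ncard = (Finset.univ.filter q).card := by
  rw [← Set.ncard_coe_finset]
  congr 1
  ext j
  simp [h]

theorem result : ¬ ∀ (w v : ℕ), 2 ≤ w → 1 ≤ v → w ∣ v → ∀ M : Matrix (Fin v) (Fin v) ℂ,
    IsBH w v M → Normalised M → RowBalanced w v M → ColBalanced w v M → IsGH w v M := by
  intro hall
  have hBH : IsBH 4 16 H := by
    refine ⟨H4, ?_⟩
    ext i k
    have := congrArg GaussianInt.toComplex (Gorth i k)
    rw [map_sum] at this
    simp only [map_mul, GaussianInt.toComplex_star] at this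
    simp only [Matrix.mul_apply, Matrix.conjTranspose_apply, H, Matrix.smul_apply,
      Matrix.one_apply, Complex.star_def]
    rw [this]
    split_ifs
    · simp [map_ofNat]
    · simp
  have hN : Normalised H := by
    intro i j hij
    simp [H, Gnorm i j hij]
  have hR : RowBalanced 4 16 H := by
    intro i hi h hh
    obtain ⟨k, rfl⟩ := root4 h hh
    rw [ncard_eq _ (fun j => G i j = un k.val) (fun j => by simp [H])]
    exact Grow i hi k
  have hC : ColBalanced 4 16 H := by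
    intro j hj h hh
    obtain ⟨k, rfl⟩ := root4 h hh
    rw [ncard_eq _ (fun i => G i j = un k.val) (fun i => by simp [H])]
    exact Gcol j hj k
  have hG := (hall 4 16 (by norm_num) (by norm_num) (by norm_num) H hBH hN hR hC).2 4 3
    (by decide) 1 (by norm_num)
  rw [ncard_eq _ (fun j => G 4 j = G 3 j) (fun j => by
    have h0 : H 3 j ≠ 0 := by
      intro h0
      have := H4 3 j
      rw [h0] at this
      norm_num at this
    rw [mul_inv_eq_one₀ h0]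
    simp [H])] at hG
  rw [Gbad] at hG
  norm_num at hG

end Pool.Agent.Results.MP_56f6b7_co.Disproof
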